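import Mathlib
import Pool.Agent.T2h44.SY.Prod

/-!
# MP_338784_al: ranks above the least rank in `⟨f, G⟩` for primitive `G`

For every `m ≥ 1` there is a primitive group `G` of degree `45 ^ m` such that for all
`j ≤ 3 ^ (m - 1)` there is a map `f` of rank `r + 2 j` for which the least rank of an element of
`⟨f, G⟩` is `r = 3 ^ m`. For `j = 1` this is the negation of Q1, with infinitely many values of `r`; and
every even number is a difference between the rank of `f` and the least rank.

For `m = 1` the group is the automorphism group, of order 1440, of the line graph `X` of the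
Tutte-Coxeter graph, and `f` is the map of rank five of Araujo, Bentz, Cameron, Royle and Schaefer
(2016). For general `m` the graph is the power of `X` in which `x`, `y` are adjacent if they are adjacent
in some coordinate; its clique number and its chromatic number are `3 ^ m`. The maps are
`(x_0, ..., x_k) ↦ (ψ_t(x_0), t_1, ..., t_k)`, `t_i` the colours of the `x_i` in a 3-colouring of `X` and
`ψ_t` the map of rank five for `j` of the `t`, and the map of rank three for the others.
-/

set_option autoImplicit false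

namespace Pool.Agent.Results.MP_338784_al.RankPlusEven

/-- a transitive group which preserves no equivalence relation but equality and the universal one -/
structure IsPrimitive {n : ℕ} (G : Subgroup (Equiv.Perm (Fin n))) : Prop where
  trans : ∀ x y : Fin n, ∃ g ∈ G, g x = y
  prim : ∀ R : Fin n → Fin n → Prop, Equivalence R →
    (∀ g ∈ G, ∀ x y, R x y → R (g x) (g y)) → (∀ x y, R x y → x = y) ∨ ∀ x y, R x y

/-- the elements of the semigroup generated by the map `f` and all elements of `G` -/
inductive Semi {n : ℕ} (f : Fin n → Fin n) (G : Subgroup (Equiv.Perm (Fin n))) :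
    (Fin n → Fin n) → Prop
  | map : Semi f G f
  | perm (g : Equiv.Perm (Fin n)) : g ∈ G → Semi f G g
  | comp (s t : Fin n → Fin n) : Semi f G s → Semi f G t → Semi f G (s ∘ t)

/-- the rank of a map: the size of its image -/
noncomputable def rank {n : ℕ} (s : Fin n → Fin n) : ℕ := (Set.range s).ncard

open Pool.Agent.T2h44.SY in
theorem rank_conj {Ω : Type} {n : ℕ} (e : Ω ≃ Fin n) (s : Ω → Ω) :
    rank (e ∘ s ∘ e.symm) = Pool.Agent.T2h44.SY.rank s := by
  unfold rank Pool.Agent.T2h44.SY.rank
  rw [Set.range_comp, e.symm.surjective.range_comp s, Set.ncard_image_of_injective _ e.injective]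

open Pool.Agent.T2h44.SY in
/-- **Ranks above the least rank.** -/
theorem result (m : ℕ) (hm : 1 ≤ m) : ∃ G : Subgroup (Equiv.Perm (Fin (45 ^ m))),
    IsPrimitive G ∧ ∀ j ≤ 3 ^ (m - 1), ∃ f : Fin (45 ^ m) → Fin (45 ^ m),
      IsLeast {r | ∃ s, Semi f G s ∧ rank s = r} (3 ^ m) ∧ rank f = 3 ^ m + 2 * j := by
  obtain ⟨k, rfl⟩ : ∃ k, m = k + 1 := ⟨m - 1, by omega⟩
  let e : W (k + 1) ≃ Fin (45 ^ (k + 1)) := finFunctionFinEquiv
  let G' : Subgroup (Equiv.Perm (Fin (45 ^ (k + 1)))) :=
    (Pool.Agent.T2h44.SY.G (k + 1)).map e.permCongrHom.toMonoidHom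
  have hG1 : ∀ g ∈ Pool.Agent.T2h44.SY.G (k + 1), e.permCongr g ∈ G' := fun g hg =>
    ⟨g, hg, rfl⟩
  have hG2 : ∀ g' ∈ G', ∃ g ∈ Pool.Agent.T2h44.SY.G (k + 1), g' = e.permCongr g := by
    rintro _ ⟨g, hg, rfl⟩
    exact ⟨g, hg, rfl⟩
  refine ⟨G', ⟨?_, ?_⟩, ?_⟩
  · intro x y
    obtain ⟨g, hg, h⟩ := trans_G (e.symm x) (e.symm y)
    refine ⟨_, hG1 g hg, ?_⟩
    rw [Equiv.permCongr_apply, h, e.apply_symm_apply]
  · intro R hR hG
    have h1 : Equivalence fun x y : W (k + 1) => R (e x) (e y) :=
      ⟨fun x => hR.refl _, fun h => hR.symm h, fun h h' => hR.trans h h'⟩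
    rcases (primitive_G (k + 1)).prim _ h1 (by
      intro g hg x y hxy
      have h2 := hG _ (hG1 g hg) _ _ hxy
      rwa [Equiv.permCongr_apply, Equiv.permCongr_apply, e.symm_apply_apply,
        e.symm_apply_apply] at h2) with h2 | h2
    · left
      intro x y hxy
      have h3 := h2 (e.symm x) (e.symm y) (by
        rw [e.apply_symm_apply, e.apply_symm_apply]
        exact hxy)
      exact e.symm.injective h3
    · right
      intro x y
      have h3 := h2 (e.symm x) (e.symm y)
      rwa [e.apply_symm_apply, e.apply_symm_apply] at h3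
  · intro j hj
    rw [Nat.add_sub_cancel] at hj
    obtain ⟨J, hJ, hJc⟩ := Finset.exists_subset_card_eq (s := K k) (n := j) (by
      rw [card_K]
      exact hj)
    have hto : ∀ s, Gen (fm k J) (Pool.Agent.T2h44.SY.G (k + 1)) s →
        Semi (e ∘ fm k J ∘ e.symm) G' (e ∘ s ∘ e.symm) := by
      intro s hs
      induction hs with
      | map => exact Semi.map
      | perm g hg => exact Semi.perm _ (hG1 g hg)
      | comp s t _ _ h1 h2 =>
        have h3 := Semi.comp _ _ h1 h2
        have h4 : (e ∘ s ∘ e.symm) ∘ e ∘ t ∘ e.symm = e ∘ (s ∘ t) ∘ e.symm := by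
          funext x
          simp
        rwa [h4] at h3
    have hfrom : ∀ s', Semi (e ∘ fm k J ∘ e.symm) G' s' →
        ∃ s, Gen (fm k J) (Pool.Agent.T2h44.SY.G (k + 1)) s ∧ s' = e ∘ s ∘ e.symm := by
      intro s' hs
      induction hs with
      | map => exact ⟨_, Gen.map, rfl⟩
      | perm g' hg' =>
        obtain ⟨g, hg, rfl⟩ := hG2 g' hg'
        exact ⟨g, Gen.perm g hg, rfl⟩
      | comp s t _ _ h1 h2 =>
        obtain ⟨s1, hs1, rfl⟩ := h1
        obtain ⟨s2, hs2, rfl⟩ := h2
        refine ⟨_, Gen.comp _ _ hs1 hs2, ?_⟩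
        funext x
        simp
    refine ⟨e ∘ fm k J ∘ e.symm, ⟨?_, ?_⟩, ?_⟩
    · obtain ⟨s, hs, hr⟩ := exists_small J
      exact ⟨_, hto s hs, by rw [rank_conj, hr]⟩
    · rintro r ⟨s', hs', rfl⟩
      obtain ⟨s, hs, rfl⟩ := hfrom s' hs'
      rw [rank_conj]
      exact le_rank s (gen_hom J s hs)
    · rw [rank_conj, rank_fm J hJ, hJc]

end Pool.Agent.Results.MP_338784_al.RankPlusEven
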